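import Mathlib

/-!
# Frog model on `T_3` (MP_2b43a6_pr): phase 2, the memoryless recursion

`FF f x` is the one-activation recursion. For `f(x) = exp(-lam (1-x) + 3 (1-x)^2)` on `[1/3, 1]`
with `lam >= 9` it is below the same function with `lam + 1/20`.
-/

namespace Pool.Agent.H2.Frog

/-- the memoryless recursion. -/
noncomputable def FF (f : ℝ → ℝ) (x : ℝ) : ℝ :=
  (x / 3 + 2 / 9) * f (x / 3 + 2 / 9)
    + 2 * ((x / 3 + 4 / 9) * f (x / 3 + 4 / 9) - (x / 3 + 2 / 9) * f (x / 3 + 2 / 9)) *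
      (f (x / 3 + 4 / 9) + (f (x / 3 + 2 / 3) - f (x / 3 + 4 / 9)) * f (x / 3 + 2 / 3))
    + ((x / 3 + 2 / 3) * f (x / 3 + 2 / 3) - 2 * ((x / 3 + 4 / 9) * f (x / 3 + 4 / 9))
      + (x / 3 + 2 / 9) * f (x / 3 + 2 / 9)) * f (x / 3 + 2 / 3) ^ 2

/-- the comparison functions. -/
noncomputable def GG (lam x : ℝ) : ℝ := Real.exp (-lam * (1 - x) + 3 * (1 - x) ^ 2)

/-- polynomial form of one step. -/
def core (a2 a1 a0 w f1 f0 : ℝ) : ℝ :=
  a2 * w ^ 3 + 2 * a1 * f1 ^ 2 * (1 - w) + a0 * f0 * ((1 - w) * (1 + w - 2 * f1))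

theorem FF_eq (f : ℝ → ℝ) (x : ℝ) : FF f x =
    core (x / 3 + 2 / 3) (x / 3 + 4 / 9) (x / 3 + 2 / 9)
      (f (x / 3 + 2 / 3)) (f (x / 3 + 4 / 9)) (f (x / 3 + 2 / 9)) := by
  unfold FF core
  ring

/-- monotonicity of one step in the three values. -/
theorem core_mono {x w f1 f0 w' f1' f0' : ℝ} (hx0 : 0 ≤ x) (hx1 : x ≤ 1)
    (h0 : 0 ≤ f0) (h01 : f0 ≤ f1) (h1w : f1 ≤ w)
    (h01' : f0' ≤ f1') (h1w' : f1' ≤ w') (hw'1 : w' ≤ 1)
    (k0 : f0 ≤ f0') (k1 : f1 ≤ f1') (kw : w ≤ w') :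
    core (x / 3 + 2 / 3) (x / 3 + 4 / 9) (x / 3 + 2 / 9) w f1 f0 ≤
      core (x / 3 + 2 / 3) (x / 3 + 4 / 9) (x / 3 + 2 / 9) w' f1' f0' := by
  -- first raise `w`, then `f1`, then `f0`
  have hf1 : 0 ≤ f1 := h0.trans h01
  have hw : 0 ≤ w := hf1.trans h1w
  have hf1' : 0 ≤ f1' := hf1.trans k1
  have hw' : 0 ≤ w' := hw.trans kw
  have s1 : core (x / 3 + 2 / 3) (x / 3 + 4 / 9) (x / 3 + 2 / 9) w f1 f0 ≤
      core (x / 3 + 2 / 3) (x / 3 + 4 / 9) (x / 3 + 2 / 9) w' f1 f0 := by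
    have e : core (x / 3 + 2 / 3) (x / 3 + 4 / 9) (x / 3 + 2 / 9) w' f1 f0 -
        core (x / 3 + 2 / 3) (x / 3 + 4 / 9) (x / 3 + 2 / 9) w f1 f0 =
        (w' - w) * ((x / 3 + 2 / 3) * (w' ^ 2 + w' * w + w ^ 2) - 2 * (x / 3 + 4 / 9) * f1 ^ 2 -
          (x / 3 + 2 / 9) * f0 * (w' + w - 2 * f1)) := by
      unfold core
      ring
    have p1 : f1 ^ 2 ≤ w * w := by nlinarith
    have p2 : f0 * (w' + w - 2 * f1) ≤ w' * w := by
      have q1 : f0 * (w' + w - 2 * f1) ≤ f1 * (w' + w - 2 * f1) := by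
        apply mul_le_mul_of_nonneg_right h01
        linarith
      have q2 : f1 * (w' + w - 2 * f1) ≤ w' * w := by
        have z1 := mul_nonneg (sub_nonneg.2 h1w) (sub_nonneg.2 (h1w.trans kw))
        have z2 := mul_nonneg hf1 hf1
        nlinarith
      linarith
    have p3 : w * w ≤ w' * w := mul_le_mul_of_nonneg_right kw hw
    have p4 : w' * w ≤ w' ^ 2 := by nlinarith
    have p5 : 0 ≤ (x / 3 + 2 / 3) * (w' ^ 2 + w' * w + w ^ 2) - 2 * (x / 3 + 4 / 9) * f1 ^ 2 -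
          (x / 3 + 2 / 9) * f0 * (w' + w - 2 * f1) := by
      have r1 : 2 * (x / 3 + 4 / 9) * f1 ^ 2 ≤ 2 * (x / 3 + 4 / 9) * (w' * w) :=
        mul_le_mul_of_nonneg_left (p1.trans p3) (by linarith)
      have r2 : (x / 3 + 2 / 9) * (f0 * (w' + w - 2 * f1)) ≤ (x / 3 + 2 / 9) * (w' * w) :=
        mul_le_mul_of_nonneg_left p2 (by linarith)
      have r3 : 0 ≤ w' * w := mul_nonneg hw' hw
      have r4 : 0 ≤ w ^ 2 := sq_nonneg w
      have r5 : (x / 3 + 2 / 3) * (w' * w + w' * w) ≤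
          (x / 3 + 2 / 3) * (w' ^ 2 + w' * w + w ^ 2) :=
        mul_le_mul_of_nonneg_left (by linarith) (by linarith)
      nlinarith
    have p6 := mul_nonneg (sub_nonneg.2 kw) p5
    linarith
  have s2 : core (x / 3 + 2 / 3) (x / 3 + 4 / 9) (x / 3 + 2 / 9) w' f1 f0 ≤
      core (x / 3 + 2 / 3) (x / 3 + 4 / 9) (x / 3 + 2 / 9) w' f1' f0 := by
    have e : core (x / 3 + 2 / 3) (x / 3 + 4 / 9) (x / 3 + 2 / 9) w' f1' f0 -
        core (x / 3 + 2 / 3) (x / 3 + 4 / 9) (x / 3 + 2 / 9) w' f1 f0 =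
        (f1' - f1) * ((1 - w') * (2 * ((x / 3 + 4 / 9) * (f1' + f1) - (x / 3 + 2 / 9) * f0))) := by
      unfold core
      ring
    have p1 : 0 ≤ (x / 3 + 4 / 9) * (f1' + f1) - (x / 3 + 2 / 9) * f0 := by
      have q1 : (x / 3 + 2 / 9) * f0 ≤ (x / 3 + 4 / 9) * f0 :=
        mul_le_mul_of_nonneg_right (by linarith) h0
      have q2 : (x / 3 + 4 / 9) * f0 ≤ (x / 3 + 4 / 9) * (f1' + f1) :=
        mul_le_mul_of_nonneg_left (by linarith) (by linarith)
      linarith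
    have p6 := mul_nonneg (sub_nonneg.2 k1) (mul_nonneg (sub_nonneg.2 hw'1)
      (mul_nonneg (zero_le_two) p1))
    linarith
  have s3 : core (x / 3 + 2 / 3) (x / 3 + 4 / 9) (x / 3 + 2 / 9) w' f1' f0 ≤
      core (x / 3 + 2 / 3) (x / 3 + 4 / 9) (x / 3 + 2 / 9) w' f1' f0' := by
    have e : core (x / 3 + 2 / 3) (x / 3 + 4 / 9) (x / 3 + 2 / 9) w' f1' f0' -
        core (x / 3 + 2 / 3) (x / 3 + 4 / 9) (x / 3 + 2 / 9) w' f1' f0 =
        (f0' - f0) * ((x / 3 + 2 / 9) * ((1 - w') * (1 + w' - 2 * f1'))) := by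
      unfold core
      ring
    have p6 := mul_nonneg (sub_nonneg.2 k0) (mul_nonneg (by linarith : 0 ≤ x / 3 + 2 / 9)
      (mul_nonneg (sub_nonneg.2 hw'1) (by linarith : 0 ≤ 1 + w' - 2 * f1')))
    linarith
  exact s1.trans (s2.trans s3)

/-- monotonicity of the recursion. -/
theorem FF_mono (f g : ℝ → ℝ) (x : ℝ) (hx0 : 1 / 3 ≤ x) (hx1 : x ≤ 1)
    (hf0 : ∀ y, 1 / 3 ≤ y → y ≤ 1 → 0 ≤ f y)
    (hfm : ∀ y z, 1 / 3 ≤ y → y ≤ z → z ≤ 1 → f y ≤ f z)
    (hg1 : ∀ y, 1 / 3 ≤ y → y ≤ 1 → g y ≤ 1)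
    (hgm : ∀ y z, 1 / 3 ≤ y → y ≤ z → z ≤ 1 → g y ≤ g z)
    (hfg : ∀ y, 1 / 3 ≤ y → y ≤ 1 → f y ≤ g y) : FF f x ≤ FF g x := by
  rw [FF_eq, FF_eq]
  refine core_mono (by linarith) hx1 (hf0 _ (by linarith) (by linarith))
    (hfm _ _ (by linarith) (by linarith) (by linarith))
    (hfm _ _ (by linarith) (by linarith) (by linarith))
    (hgm _ _ (by linarith) (by linarith) (by linarith))
    (hgm _ _ (by linarith) (by linarith) (by linarith))
    (hg1 _ (by linarith) (by linarith))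
    (hfg _ (by linarith) (by linarith)) (hfg _ (by linarith) (by linarith))
    (hfg _ (by linarith) (by linarith))

theorem GG_pos (lam x : ℝ) : 0 < GG lam x := Real.exp_pos _

theorem GG_le_one {lam x : ℝ} (hl : 2 ≤ lam) (hx0 : 1 / 3 ≤ x) (hx1 : x ≤ 1) : GG lam x ≤ 1 := by
  unfold GG
  have h : -lam * (1 - x) + 3 * (1 - x) ^ 2 ≤ 0 := by nlinarith
  have h2 := Real.exp_le_exp.2 h
  rwa [Real.exp_zero] at h2

theorem GG_mono {lam x y : ℝ} (hl : 4 ≤ lam) (hx0 : 1 / 3 ≤ x) (hxy : x ≤ y) (hy1 : y ≤ 1) :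
    GG lam x ≤ GG lam y := by
  unfold GG
  apply Real.exp_le_exp.2
  nlinarith

/-- `exp(-k/20) <= 0.95123^k`. -/
theorem ebound (k : ℕ) : Real.exp (-(k : ℝ) / 20) ≤ (95123 / 100000 : ℝ) ^ k := by
  have h1 : Real.exp (-1 / 20) ≤ 95123 / 100000 := by
    have h2 : (100000 / 95123 : ℝ) ≤ Real.exp (1 / 20) := by
      have h3 := Real.sum_le_exp_of_nonneg (show (0 : ℝ) ≤ 1 / 20 by norm_num) 4
      refine le_trans ?_ h3
      norm_num [Finset.sum_range_succ, Nat.factorial]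
    have h4 : Real.exp (-1 / 20) = (Real.exp (1 / 20))⁻¹ := by
      rw [← Real.exp_neg]
      congr 1
      norm_num
    rw [h4]
    have h5 : (Real.exp (1 / 20))⁻¹ ≤ (100000 / 95123 : ℝ)⁻¹ :=
      inv_anti₀ (by norm_num) h2
    refine h5.trans ?_
    norm_num
  have h6 : Real.exp (-(k : ℝ) / 20) = Real.exp (-1 / 20) ^ k := by
    rw [← Real.exp_nat_mul]
    congr 1
    ring
  rw [h6]
  exact pow_le_pow_left₀ (Real.exp_pos _).le h1 k

/-- `lam exp(-lam a) <= 9 exp(-9 a)` for `lam >= 9`, `a >= 1/9`. -/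
theorem lam_exp {lam a : ℝ} (hl : 9 ≤ lam) (ha : 1 / 9 ≤ a) :
    lam * Real.exp (-lam * a) ≤ 9 * Real.exp (-9 * a) := by
  have h1 : lam ≤ 9 * Real.exp ((lam - 9) * a) := by
    have h2 := Real.add_one_le_exp ((lam - 9) * a)
    nlinarith
  have h3 : Real.exp (-9 * a) = Real.exp ((lam - 9) * a) * Real.exp (-lam * a) := by
    rw [← Real.exp_add]
    congr 1
    ring
  rw [h3]
  have h4 := Real.exp_pos (-lam * a)
  nlinarith

/-- exponent of the second term at `lam = 9`. -/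
noncomputable def bE (t : ℝ) : ℝ := -9 * (4 / 9 - t / 3) + 6 * (t / 3 + 2 / 9) ^ 2 + t / 20 - 3 * t ^ 2

/-- exponent of the third term at `lam = 9`. -/
noncomputable def cE (t : ℝ) : ℝ := -9 * (4 / 9 - 2 * t / 3) + 3 * (t / 3 + 4 / 9) ^ 2 + t / 20 - 3 * t ^ 2

theorem bE_mono {s t : ℝ} (h0 : 0 ≤ s) (hst : s ≤ t) (ht : t ≤ 2 / 3) : bE s ≤ bE t := by
  unfold bE
  nlinarith

theorem cE_mono {s t : ℝ} (h0 : 0 ≤ s) (hst : s ≤ t) (ht : t ≤ 2 / 3) : cE s ≤ cE t := by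
  unfold cE
  nlinarith

/-- first regime: `t <= 1/6`, everything divided by `t`. -/
theorem piece1 (a b : ℝ) (kb kc : ℕ) (ha : 0 ≤ a) (hb : b ≤ 2 / 3)
    (h1 : bE b ≤ -(kb : ℝ) / 20) (h2 : cE b ≤ -(kc : ℝ) / 20)
    (h3 : 6 * (7 / 9 - a / 3) * (95123 / 100000) ^ kb + 6 * (5 / 9 - a / 3) * (95123 / 100000) ^ kc
      ≤ (2 * a + 1 / 3 - 1 / 20) / (1 + 2 * b ^ 2))
    (t : ℝ) (hat : a ≤ t) (htb : t ≤ b) :
    (1 - t / 3) / (1 + 2 * t ^ 2 - t / 20) + 2 * (7 / 9 - t / 3) * (3 * t * Real.exp (bE t)) +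
      (5 / 9 - t / 3) * (6 * t * Real.exp (cE t)) ≤ 1 := by
  have ht0 : 0 ≤ t := ha.trans hat
  have hb0 : 0 ≤ b := ht0.trans htb
  have hB : Real.exp (bE t) ≤ (95123 / 100000 : ℝ) ^ kb :=
    (Real.exp_le_exp.2 ((bE_mono ht0 htb hb).trans h1)).trans (ebound kb)
  have hC : Real.exp (cE t) ≤ (95123 / 100000 : ℝ) ^ kc :=
    (Real.exp_le_exp.2 ((cE_mono ht0 htb hb).trans h2)).trans (ebound kc)
  have hBp := Real.exp_pos (bE t)
  have hCp := Real.exp_pos (cE t)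
  have hD : 0 < 1 + 2 * t ^ 2 - t / 20 := by nlinarith
  have hD2 : 0 < 1 + 2 * b ^ 2 := by positivity
  -- the second and third terms
  have e1 : (7 / 9 - t / 3) * Real.exp (bE t) ≤ (7 / 9 - a / 3) * (95123 / 100000) ^ kb := by
    apply mul_le_mul (by linarith) hB hBp.le (by linarith)
  have e2 : (5 / 9 - t / 3) * Real.exp (cE t) ≤ (5 / 9 - a / 3) * (95123 / 100000) ^ kc := by
    apply mul_le_mul (by linarith) hC hCp.le (by linarith)
  have e3 : (2 * a + 1 / 3 - 1 / 20) / (1 + 2 * b ^ 2) ≤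
      (2 * t + 1 / 3 - 1 / 20) / (1 + 2 * t ^ 2 - t / 20) := by
    rw [div_le_div_iff₀ hD2 hD]
    have q1 : 1 + 2 * t ^ 2 - t / 20 ≤ 1 + 2 * b ^ 2 := by nlinarith
    have q2 : 2 * a + 1 / 3 - 1 / 20 ≤ 2 * t + 1 / 3 - 1 / 20 := by linarith
    have q3 : 0 ≤ 2 * a + 1 / 3 - 1 / 20 := by linarith
    exact mul_le_mul q2 q1 hD.le (by linarith)
  have e4 : (1 - t / 3) / (1 + 2 * t ^ 2 - t / 20) =
      1 - t * ((2 * t + 1 / 3 - 1 / 20) / (1 + 2 * t ^ 2 - t / 20)) := by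
    rw [eq_sub_iff_add_eq, ← mul_div_assoc, ← add_div, div_eq_one_iff_eq hD.ne']
    ring
  rw [e4]
  have e5 : 6 * ((7 / 9 - t / 3) * Real.exp (bE t)) + 6 * ((5 / 9 - t / 3) * Real.exp (cE t)) ≤
      (2 * t + 1 / 3 - 1 / 20) / (1 + 2 * t ^ 2 - t / 20) := by
    refine le_trans ?_ (h3.trans e3)
    linarith
  have e6 := mul_le_mul_of_nonneg_left e5 ht0
  linarith

/-- the first term on `[a, b]`. -/
theorem aTerm {a t : ℝ} (ha : 1 / 6 ≤ a) (hat : a ≤ t) (ht : t ≤ 2 / 3) :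
    (1 - t / 3) / (1 + 2 * t ^ 2 - t / 20) ≤ (1 - a / 3) / (1 + 2 * a ^ 2 - a / 20) := by
  have hD : 0 < 1 + 2 * t ^ 2 - t / 20 := by nlinarith
  have hD2 : 0 < 1 + 2 * a ^ 2 - a / 20 := by nlinarith
  rw [div_le_div_iff₀ hD hD2]
  apply mul_le_mul (by linarith) (by nlinarith) hD2.le (by linarith)

/-- second regime: `1/6 <= t <= 1/3`. -/
theorem piece2 (a b : ℝ) (kb kc : ℕ) (ha : 1 / 6 ≤ a) (hb : b ≤ 2 / 3)
    (h1 : bE b ≤ -(kb : ℝ) / 20) (h2 : cE b ≤ -(kc : ℝ) / 20)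
    (h3 : (1 - a / 3) / (1 + 2 * a ^ 2 - a / 20) +
      2 * (7 / 9 - a / 3) * (3 * b * (95123 / 100000) ^ kb) +
      (5 / 9 - a / 3) * (95123 / 100000) ^ kc ≤ 1)
    (t : ℝ) (hat : a ≤ t) (htb : t ≤ b) :
    (1 - t / 3) / (1 + 2 * t ^ 2 - t / 20) + 2 * (7 / 9 - t / 3) * (3 * t * Real.exp (bE t)) +
      (5 / 9 - t / 3) * (Real.exp (cE t)) ≤ 1 := by
  have ht0 : 0 ≤ t := by linarith
  have hb0 : 0 ≤ b := ht0.trans htb
  have hB : Real.exp (bE t) ≤ (95123 / 100000 : ℝ) ^ kb :=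
    (Real.exp_le_exp.2 ((bE_mono ht0 htb hb).trans h1)).trans (ebound kb)
  have hC : Real.exp (cE t) ≤ (95123 / 100000 : ℝ) ^ kc :=
    (Real.exp_le_exp.2 ((cE_mono ht0 htb hb).trans h2)).trans (ebound kc)
  have hBp := Real.exp_pos (bE t)
  have hCp := Real.exp_pos (cE t)
  have e0 := aTerm ha hat (htb.trans hb)
  have e1 : 3 * t * Real.exp (bE t) ≤ 3 * b * (95123 / 100000) ^ kb := by
    apply mul_le_mul (by linarith) hB hBp.le (by linarith)
  have e2 : 2 * (7 / 9 - t / 3) * (3 * t * Real.exp (bE t)) ≤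
      2 * (7 / 9 - a / 3) * (3 * b * (95123 / 100000) ^ kb) := by
    apply mul_le_mul (by linarith) e1 (by positivity) (by linarith)
  have e3 : (5 / 9 - t / 3) * Real.exp (cE t) ≤ (5 / 9 - a / 3) * (95123 / 100000) ^ kc := by
    apply mul_le_mul (by linarith) hC hCp.le (by linarith)
  linarith

/-- third regime: `t >= 1/3`. -/
theorem piece3 (a b rc : ℝ) (kb : ℕ) (ha : 1 / 6 ≤ a) (hb : b ≤ 2 / 3)
    (h1 : bE b ≤ -(kb : ℝ) / 20) (h2 : Real.exp (cE b) ≤ rc)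
    (h3 : (1 - a / 3) / (1 + 2 * a ^ 2 - a / 20) +
      2 * (7 / 9 - a / 3) * ((95123 / 100000) ^ kb) +
      (5 / 9 - a / 3) * rc ≤ 1)
    (t : ℝ) (hat : a ≤ t) (htb : t ≤ b) :
    (1 - t / 3) / (1 + 2 * t ^ 2 - t / 20) + 2 * (7 / 9 - t / 3) * (Real.exp (bE t)) +
      (5 / 9 - t / 3) * (Real.exp (cE t)) ≤ 1 := by
  have ht0 : 0 ≤ t := by linarith
  have hb0 : 0 ≤ b := ht0.trans htb
  have hB : Real.exp (bE t) ≤ (95123 / 100000 : ℝ) ^ kb :=
    (Real.exp_le_exp.2 ((bE_mono ht0 htb hb).trans h1)).trans (ebound kb)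
  have hC : Real.exp (cE t) ≤ rc := (Real.exp_le_exp.2 (cE_mono ht0 htb hb)).trans h2
  have hBp := Real.exp_pos (bE t)
  have hCp := Real.exp_pos (cE t)
  have e0 := aTerm ha hat (htb.trans hb)
  have e2 : 2 * (7 / 9 - t / 3) * (Real.exp (bE t)) ≤
      2 * (7 / 9 - a / 3) * ((95123 / 100000) ^ kb) := by
    apply mul_le_mul (by linarith) hB (by positivity) (by linarith)
  have e3 : (5 / 9 - t / 3) * Real.exp (cE t) ≤ (5 / 9 - a / 3) * rc := by
    apply mul_le_mul (by linarith) hC hCp.le (by linarith)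
  linarith

theorem cEe {b : ℝ} (kc : ℕ) (h2 : cE b ≤ -(kc : ℝ) / 20) :
    Real.exp (cE b) ≤ (95123 / 100000 : ℝ) ^ kc :=
  (Real.exp_le_exp.2 h2).trans (ebound kc)

theorem reg1 (t : ℝ) (h0 : 0 ≤ t) (h1 : t ≤ 1 / 6) :
    (1 - t / 3) / (1 + 2 * t ^ 2 - t / 20) + 2 * (7 / 9 - t / 3) * (3 * t * Real.exp (bE t)) +
      (5 / 9 - t / 3) * (6 * t * Real.exp (cE t)) ≤ 1 := by
  rcases le_total t (3 / 80) with h10 | h10
  · exact piece1 0 (3 / 80) 71 63 (by norm_num) (by norm_num) (by norm_num [bE])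
      (by norm_num [cE]) (by norm_num) t h0 h10
  rcases le_total t (19 / 240) with h11 | h11
  · exact piece1 (3 / 80) (19 / 240) 68 57 (by norm_num) (by norm_num) (by norm_num [bE])
      (by norm_num [cE]) (by norm_num) t h10 h11
  rcases le_total t (29 / 240) with h12 | h12
  · exact piece1 (19 / 240) (29 / 240) 65 52 (by norm_num) (by norm_num) (by norm_num [bE])
      (by norm_num [cE]) (by norm_num) t h11 h12
  rcases le_total t (13 / 80) with h13 | h13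
  · exact piece1 (29 / 240) (13 / 80) 62 47 (by norm_num) (by norm_num) (by norm_num [bE])
      (by norm_num [cE]) (by norm_num) t h12 h13
  exact piece1 (13 / 80) (1 / 6) 62 46 (by norm_num) (by norm_num) (by norm_num [bE])
    (by norm_num [cE]) (by norm_num) t h13 h1

theorem reg2 (t : ℝ) (h0 : 1 / 6 ≤ t) (h1 : t ≤ 1 / 3) :
    (1 - t / 3) / (1 + 2 * t ^ 2 - t / 20) + 2 * (7 / 9 - t / 3) * (3 * t * Real.exp (bE t)) +
      (5 / 9 - t / 3) * (Real.exp (cE t)) ≤ 1 := by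
  rcases le_total t (3 / 16) with h10 | h10
  · exact piece2 (1 / 6) (3 / 16) 60 44 (by norm_num) (by norm_num) (by norm_num [bE])
      (by norm_num [cE]) (by norm_num) t h0 h10
  rcases le_total t (13 / 60) with h11 | h11
  · exact piece2 (3 / 16) (13 / 60) 59 40 (by norm_num) (by norm_num) (by norm_num [bE])
      (by norm_num [cE]) (by norm_num) t h10 h11
  rcases le_total t (61 / 240) with h12 | h12
  · exact piece2 (13 / 60) (61 / 240) 57 36 (by norm_num) (by norm_num) (by norm_num [bE])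
      (by norm_num [cE]) (by norm_num) t h11 h12
  rcases le_total t (7 / 24) with h13 | h13
  · exact piece2 (61 / 240) (7 / 24) 55 32 (by norm_num) (by norm_num) (by norm_num [bE])
      (by norm_num [cE]) (by norm_num) t h12 h13
  exact piece2 (7 / 24) (1 / 3) 53 27 (by norm_num) (by norm_num) (by norm_num [bE])
    (by norm_num [cE]) (by norm_num) t h13 h1

theorem reg3 (t : ℝ) (h0 : 1 / 3 ≤ t) (h1 : t ≤ 2 / 3) :
    (1 - t / 3) / (1 + 2 * t ^ 2 - t / 20) + 2 * (7 / 9 - t / 3) * (Real.exp (bE t)) +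
      (5 / 9 - t / 3) * (Real.exp (cE t)) ≤ 1 := by
  rcases le_total t (31 / 80) with h10 | h10
  · exact piece3 (1 / 3) (31 / 80) _ 50 (by norm_num) (by norm_num) (by norm_num [bE])
      (cEe 22 (by norm_num [cE])) (by norm_num) t h0 h10
  rcases le_total t (109 / 240) with h11 | h11
  · exact piece3 (31 / 80) (109 / 240) _ 47 (by norm_num) (by norm_num) (by norm_num [bE])
      (cEe 16 (by norm_num [cE])) (by norm_num) t h10 h11
  rcases le_total t (25 / 48) with h12 | h12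
  · exact piece3 (109 / 240) (25 / 48) _ 45 (by norm_num) (by norm_num) (by norm_num [bE])
      (cEe 10 (by norm_num [cE])) (by norm_num) t h11 h12
  rcases le_total t (3 / 5) with h13 | h13
  · exact piece3 (25 / 48) (3 / 5) _ 43 (by norm_num) (by norm_num) (by norm_num [bE])
      (cEe 4 (by norm_num [cE])) (by norm_num) t h12 h13
  have hc : Real.exp (cE (2 / 3)) ≤ 30 / 29 := by
    have e1 : cE (2 / 3) = 1 / 30 := by norm_num [cE]
    rw [e1]
    have e2 := Real.add_one_le_exp (-(1 / 30 : ℝ))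
    have e3 : Real.exp (1 / 30) = 1 / Real.exp (-(1 / 30)) := by
      rw [Real.exp_neg]
      simp
    rw [e3, div_le_iff₀ (Real.exp_pos _)]
    linarith
  exact piece3 (3 / 5) (2 / 3) _ 42 (by norm_num) (by norm_num) (by norm_num [bE])
    hc (by norm_num) t h13 h1

/-- one step of the recursion on the comparison functions. -/
theorem FF_GG (lam : ℝ) (hl : 9 ≤ lam) (x : ℝ) (hx0 : 1 / 3 ≤ x) (hx1 : x ≤ 1) :
    FF (GG lam) x ≤ GG (lam + 1 / 20) x := by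
  rw [FF_eq]
  obtain ⟨t, rfl⟩ : ∃ t, x = 1 - t := ⟨1 - x, by ring⟩
  have ht0 : 0 ≤ t := by linarith
  have ht1 : t ≤ 2 / 3 := by linarith
  set w := GG lam ((1 - t) / 3 + 2 / 3) with hw
  set f1 := GG lam ((1 - t) / 3 + 4 / 9) with hf1
  set f0 := GG lam ((1 - t) / 3 + 2 / 9) with hf0
  set G := GG (lam + 1 / 20) (1 - t) with hG
  have hGp : 0 < G := GG_pos _ _
  have hwp : 0 < w := GG_pos _ _
  have hf1p : 0 < f1 := GG_pos _ _
  have hf0p : 0 < f0 := GG_pos _ _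
  have hw1 : w ≤ 1 := GG_le_one (by linarith) (by linarith) (by linarith)
  have hf1w : f1 ≤ w := GG_mono (by linarith) (by linarith) (by linarith) (by linarith)
  -- the first term
  have hD : 0 < 1 + 2 * t ^ 2 - t / 20 := by nlinarith
  have k1 : w ^ 3 ≤ G * (1 / (1 + 2 * t ^ 2 - t / 20)) := by
    have e1 : w ^ 3 = G * Real.exp (t / 20 - 2 * t ^ 2) := by
      rw [hw, hG]
      unfold GG
      rw [← Real.exp_nat_mul, ← Real.exp_add]
      congr 1
      push_cast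
      ring
    rw [e1]
    apply mul_le_mul_of_nonneg_left _ hGp.le
    have e2 := Real.add_one_le_exp (-(t / 20 - 2 * t ^ 2))
    have e3 : Real.exp (t / 20 - 2 * t ^ 2) = 1 / Real.exp (-(t / 20 - 2 * t ^ 2)) := by
      rw [Real.exp_neg]
      simp
    rw [e3]
    apply one_div_le_one_div_of_le hD
    linarith
  -- the other two terms
  have k2 : f1 ^ 2 = G * Real.exp (-lam * (4 / 9 - t / 3) + (6 * (t / 3 + 2 / 9) ^ 2 + t / 20
      - 3 * t ^ 2)) := by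
    rw [hf1, hG]
    unfold GG
    rw [← Real.exp_nat_mul, ← Real.exp_add]
    congr 1
    push_cast
    ring
  have k3 : f0 = G * Real.exp (-lam * (4 / 9 - 2 * t / 3) + (3 * (t / 3 + 4 / 9) ^ 2 + t / 20
      - 3 * t ^ 2)) := by
    rw [hf0, hG]
    unfold GG
    rw [← Real.exp_add]
    congr 1
    ring
  set E1 := Real.exp (-lam * (4 / 9 - t / 3) + (6 * (t / 3 + 2 / 9) ^ 2 + t / 20
      - 3 * t ^ 2)) with hE1
  set E0 := Real.exp (-lam * (4 / 9 - 2 * t / 3) + (3 * (t / 3 + 4 / 9) ^ 2 + t / 20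
      - 3 * t ^ 2)) with hE0
  have hE1p : 0 < E1 := Real.exp_pos _
  have hE0p : 0 < E0 := Real.exp_pos _
  have m1 : 1 - w ≤ lam * t / 3 := by
    have e2 := Real.add_one_le_exp (-lam * (1 - ((1 - t) / 3 + 2 / 3)) +
      3 * (1 - ((1 - t) / 3 + 2 / 3)) ^ 2)
    have e3 : w = Real.exp (-lam * (1 - ((1 - t) / 3 + 2 / 3)) +
      3 * (1 - ((1 - t) / 3 + 2 / 3)) ^ 2) := rfl
    rw [← e3] at e2
    nlinarith [sq_nonneg t]
  have m2 : 1 - w ≤ 1 := by linarith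
  have m0 : 0 ≤ 1 - w := by linarith
  have n0 : 0 ≤ (1 - w) * (1 + w - 2 * f1) := mul_nonneg m0 (by linarith)
  have n1 : (1 - w) * (1 + w - 2 * f1) ≤ 1 := by nlinarith
  have n2 : (1 - w) * (1 + w - 2 * f1) ≤ 2 * (lam * t / 3) := by nlinarith
  -- bounds of the exponentials
  have b1 : E1 ≤ Real.exp (bE t) := by
    apply Real.exp_le_exp.2
    unfold bE
    nlinarith
  have c1 : E0 ≤ Real.exp (cE t) := by
    apply Real.exp_le_exp.2
    unfold cE
    nlinarith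
  have b2 : t ≤ 1 / 3 → lam * E1 ≤ 9 * Real.exp (bE t) := by
    intro h
    have e1 := lam_exp hl (show 1 / 9 ≤ 4 / 9 - t / 3 by linarith)
    have e2 : E1 = Real.exp (-lam * (4 / 9 - t / 3)) *
        Real.exp (6 * (t / 3 + 2 / 9) ^ 2 + t / 20 - 3 * t ^ 2) := by
      rw [hE1, Real.exp_add]
    have e3 : Real.exp (bE t) = Real.exp (-9 * (4 / 9 - t / 3)) *
        Real.exp (6 * (t / 3 + 2 / 9) ^ 2 + t / 20 - 3 * t ^ 2) := by
      rw [← Real.exp_add]
      congr 1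
      unfold bE
      ring
    rw [e2, e3, ← mul_assoc, ← mul_assoc]
    exact mul_le_mul_of_nonneg_right e1 (Real.exp_pos _).le
  have c2 : t ≤ 1 / 2 → lam * E0 ≤ 9 * Real.exp (cE t) := by
    intro h
    have e1 := lam_exp hl (show 1 / 9 ≤ 4 / 9 - 2 * t / 3 by linarith)
    have e2 : E0 = Real.exp (-lam * (4 / 9 - 2 * t / 3)) *
        Real.exp (3 * (t / 3 + 4 / 9) ^ 2 + t / 20 - 3 * t ^ 2) := by
      rw [hE0, Real.exp_add]
    have e3 : Real.exp (cE t) = Real.exp (-9 * (4 / 9 - 2 * t / 3)) *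
        Real.exp (3 * (t / 3 + 4 / 9) ^ 2 + t / 20 - 3 * t ^ 2) := by
      rw [← Real.exp_add]
      congr 1
      unfold cE
      ring
    rw [e2, e3, ← mul_assoc, ← mul_assoc]
    exact mul_le_mul_of_nonneg_right e1 (Real.exp_pos _).le
  have key : (1 - t / 3) / (1 + 2 * t ^ 2 - t / 20) +
      2 * (7 / 9 - t / 3) * ((1 - w) * E1) +
      (5 / 9 - t / 3) * (((1 - w) * (1 + w - 2 * f1)) * E0) ≤ 1 := by
    rcases le_total t (1 / 6) with h | h
    · refine le_trans ?_ (reg1 t ht0 h)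
      have p1 : (1 - w) * E1 ≤ 3 * t * Real.exp (bE t) := by
        have q1 := mul_le_mul_of_nonneg_right m1 hE1p.le
        have q2 := mul_le_mul_of_nonneg_left (b2 (by linarith)) ht0
        nlinarith
      have p2 : ((1 - w) * (1 + w - 2 * f1)) * E0 ≤ 6 * t * Real.exp (cE t) := by
        have q1 := mul_le_mul_of_nonneg_right n2 hE0p.le
        have q2 := mul_le_mul_of_nonneg_left (c2 (by linarith)) ht0
        nlinarith
      have p3 := mul_le_mul_of_nonneg_left p1 (show 0 ≤ 2 * (7 / 9 - t / 3) by linarith)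
      have p4 := mul_le_mul_of_nonneg_left p2 (show 0 ≤ 5 / 9 - t / 3 by linarith)
      linarith
    · have p2 : ((1 - w) * (1 + w - 2 * f1)) * E0 ≤ Real.exp (cE t) := by
        have q1 := mul_le_mul_of_nonneg_right n1 hE0p.le
        linarith
      have p4 := mul_le_mul_of_nonneg_left p2 (show 0 ≤ 5 / 9 - t / 3 by linarith)
      rcases le_total t (1 / 3) with h' | h'
      · refine le_trans ?_ (reg2 t h h')
        have p1 : (1 - w) * E1 ≤ 3 * t * Real.exp (bE t) := by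
          have q1 := mul_le_mul_of_nonneg_right m1 hE1p.le
          have q2 := mul_le_mul_of_nonneg_left (b2 (by linarith)) ht0
          nlinarith
        have p3 := mul_le_mul_of_nonneg_left p1 (show 0 ≤ 2 * (7 / 9 - t / 3) by linarith)
        linarith
      · refine le_trans ?_ (reg3 t h' ht1)
        have p1 : (1 - w) * E1 ≤ Real.exp (bE t) := by
          have q1 := mul_le_mul_of_nonneg_right m2 hE1p.le
          linarith
        have p3 := mul_le_mul_of_nonneg_left p1 (show 0 ≤ 2 * (7 / 9 - t / 3) by linarith)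
        linarith
  have fin : core ((1 - t) / 3 + 2 / 3) ((1 - t) / 3 + 4 / 9) ((1 - t) / 3 + 2 / 9) w f1 f0 ≤
      G * ((1 - t / 3) / (1 + 2 * t ^ 2 - t / 20) +
      2 * (7 / 9 - t / 3) * ((1 - w) * E1) +
      (5 / 9 - t / 3) * (((1 - w) * (1 + w - 2 * f1)) * E0)) := by
    unfold core
    have e1 : (1 - t) / 3 + 2 / 3 = 1 - t / 3 := by ring
    have e2 : (1 - t) / 3 + 4 / 9 = 7 / 9 - t / 3 := by ring
    have e3 : (1 - t) / 3 + 2 / 9 = 5 / 9 - t / 3 := by ring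
    rw [e1, e2, e3, k2, k3]
    have e4 := mul_le_mul_of_nonneg_left k1 (show 0 ≤ 1 - t / 3 by linarith)
    have e5 : (1 - t / 3) * (G * (1 / (1 + 2 * t ^ 2 - t / 20))) =
        G * ((1 - t / 3) / (1 + 2 * t ^ 2 - t / 20)) := by ring
    rw [e5] at e4
    linarith
  have := mul_le_mul_of_nonneg_left key hGp.le
  linarith

/-- PHASE 2: functions below the recursion, started below `GG 9`, tend to zero. -/
theorem phase2 (f : ℕ → ℝ → ℝ) (lam : ℝ) (hl : 9 ≤ lam)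
    (h0 : ∀ h x, 1 / 3 ≤ x → x ≤ 1 → 0 ≤ f h x)
    (hm : ∀ h x y, 1 / 3 ≤ x → x ≤ y → y ≤ 1 → f h x ≤ f h y)
    (hr : ∀ h x, 1 / 3 ≤ x → x ≤ 1 → f (h + 1) x ≤ FF (f h) x)
    (hs : ∀ x, 1 / 3 ≤ x → x ≤ 1 → f 0 x ≤ GG lam x) :
    (∀ h x, 1 / 3 ≤ x → x ≤ 1 → f h x ≤ GG (lam + h / 20) x) ∧
    ∀ x, 1 / 3 ≤ x → x < 1 → Filter.Tendsto (fun h => f h x) Filter.atTop (nhds 0) := by
  have main : ∀ h x, 1 / 3 ≤ x → x ≤ 1 → f h x ≤ GG (lam + h / 20) x := by
    intro h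
    induction h with
    | zero =>
      intro x hx0 hx1
      have : lam + ((0 : ℕ) : ℝ) / 20 = lam := by simp
      rw [this]
      exact hs x hx0 hx1
    | succ h ih =>
      intro x hx0 hx1
      have hl' : 9 ≤ lam + (h : ℝ) / 20 := by
        have : (0 : ℝ) ≤ (h : ℝ) := Nat.cast_nonneg h
        linarith
      refine (hr h x hx0 hx1).trans ?_
      refine (FF_mono (f h) (GG (lam + h / 20)) x hx0 hx1 (h0 h) (hm h)
        (fun y hy0 hy1 => GG_le_one (by linarith) hy0 hy1)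
        (fun y z hy hyz hz => GG_mono (by linarith) hy hyz hz) ih).trans ?_
      have e : lam + ((h + 1 : ℕ) : ℝ) / 20 = (lam + (h : ℝ) / 20) + 1 / 20 := by
        push_cast
        ring
      rw [e]
      exact FF_GG _ hl' x hx0 hx1
  refine ⟨main, ?_⟩
  intro x hx0 hx1
  apply squeeze_zero (fun h => h0 h x hx0 hx1.le) (fun h => main h x hx0 hx1.le)
  unfold GG
  apply Real.tendsto_exp_atBot.comp
  have h1 : Filter.Tendsto (fun h : ℕ => (h : ℝ)) Filter.atTop Filter.atTop :=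
    tendsto_natCast_atTop_atTop
  have h2 : Filter.Tendsto (fun h : ℕ => (-(1 - x) / 20) * (h : ℝ)) Filter.atTop Filter.atBot :=
    h1.const_mul_atTop_of_neg (by linarith)
  have h3 := Filter.tendsto_atBot_add_const_right Filter.atTop
    (-lam * (1 - x) + 3 * (1 - x) ^ 2) h2
  refine h3.congr ?_
  intro h
  ring

end Pool.Agent.H2.Frog
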